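import Pool.Agent.Helper34.FQ.Defs
import Pool.Agent.Helper34.PN.AVG
import Pool.Agent.Helper19.FQ_GAINV

/-!
The energy gain along one edge.
-/

namespace Pool.Agent.Helper34.FQ

open Finset Pool.Agent.Helper34.PN

theorem gain1 {Ω α J : Type} [Fintype Ω] [Nonempty Ω] [LinearOrder α] [Fintype J]
    {s : Ω → α → Fin 3} {Z W : Finset α} {r : ℕ} {ε c : ℝ} {X : J → ℕ → α} {M : J → ℝ}
    {D mx : α → ℝ} (hd : Dat Z r ε X M D mx) (hW : Wd s Z W D c) (hc : 0 ≤ c) (η : ℝ)
    (h0 : 0 < η) (h1 : η ≤ 1) (q : ℕ) (hq : q < r) :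
    ∑ e, M e * (energy s (X e q) (lw (W ∪ pre X q e) (X e q))
        - energy s (X e q) (lw W (X e q)))
      ≤ (2 * c * η * r + 2 * (1 / η) ^ r * (r * ε)) * (Fintype.card Ω : ℝ) := by
  classical
  refine gainv s Z W D c r hW (fun x _ => hd.D0 x) hd.Ds hc (univ : Finset J)
    (fun e => X e q) (fun e _ => hd.mem e q hq) M (fun e _ => hd.M0 e) (fun e => pre X q e) r
    ?_ ?_ (fun x => r * mx x) (r * ε) ?_ ?_ ?_ η h0 h1
  · intro e _
    constructor
    · intro x hx
      obtain ⟨i, hi, rfl⟩ := mem_image.1 hx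
      exact hd.mem e i (lt_trans (mem_range.1 hi) hq)
    · exact (card_image_le.trans (by rw [card_range])).trans hq.le
  · intro x _
    refine le_trans ?_ (hd.De x)
    refine sum_le_sum_of_subset_of_nonneg ?_ fun e _ _ => hd.M0 e
    intro e he
    refine mem_filter.2 ⟨mem_univ _, ?_⟩
    rw [← (mem_filter.1 he).2]
    exact mem_image_of_mem _ (mem_range.2 hq)
  · intro x _
    exact mul_nonneg (Nat.cast_nonneg _) (hd.mx0 x)
  · rw [← mul_sum]
    exact mul_le_mul_of_nonneg_left hd.mxs (Nat.cast_nonneg _)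
  · intro e _
    have hz : ∀ z ∈ pre X q e, X e q ≠ z := by
      intro z hz
      obtain ⟨i, hi, rfl⟩ := mem_image.1 hz
      exact (hd.mono e i q (mem_range.1 hi) hq).ne'
    have h2 : ∑ j ∈ univ.filter (fun j => X j q = X e q ∧ ¬ Disjoint (pre X q e) (pre X q j)), M j
        ≤ ∑ z ∈ pre X q e,
          ∑ j ∈ univ.filter (fun j => X e q ∈ pre X r j ∧ z ∈ pre X r j), M j := by
      have h3 : ∀ z ∈ pre X q e, ∑ j ∈ univ.filter
          (fun j => X e q ∈ pre X r j ∧ z ∈ pre X r j), M j
          = ∑ j, (if X e q ∈ pre X r j ∧ z ∈ pre X r j then M j else 0) := fun z _ => by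
        rw [sum_filter]
      rw [sum_congr rfl h3, sum_comm, sum_filter]
      refine sum_le_sum fun j _ => ?_
      have hnn : ∀ z ∈ pre X q e, 0 ≤ (if X e q ∈ pre X r j ∧ z ∈ pre X r j then M j else 0) := by
        intro z _
        split_ifs
        · exact hd.M0 j
        · exact le_rfl
      split_ifs with h
      · obtain ⟨h4, h5⟩ := h
        rw [not_disjoint_iff] at h5
        obtain ⟨z, hz1, hz2⟩ := h5
        have h6 : X e q ∈ pre X r j := by
          rw [← h4]
          exact mem_image_of_mem _ (mem_range.2 hq)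
        have h7 : z ∈ pre X r j := by
          obtain ⟨i, hi, rfl⟩ := mem_image.1 hz2
          exact mem_image_of_mem _ (mem_range.2 (lt_trans (mem_range.1 hi) hq))
        have h8 := single_le_sum hnn hz1
        rw [if_pos ⟨h6, h7⟩] at h8
        exact h8
      · exact sum_nonneg hnn
    refine h2.trans ?_
    calc ∑ z ∈ pre X q e, ∑ j ∈ univ.filter (fun j => X e q ∈ pre X r j ∧ z ∈ pre X r j), M j
        ≤ ∑ _z ∈ pre X q e, mx (X e q) := sum_le_sum fun z hz' => hd.mxe _ _ (hz z hz')
      _ = ((pre X q e).card : ℝ) * mx (X e q) := by rw [sum_const, nsmul_eq_mul]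
      _ ≤ r * mx (X e q) := by
          refine mul_le_mul_of_nonneg_right ?_ (hd.mx0 _)
          have : (pre X q e).card ≤ r := (card_image_le.trans (by rw [card_range])).trans hq.le
          exact_mod_cast this

end Pool.Agent.Helper34.FQ
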