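import Pool.Agent.Helper34.FQ.Defs
import Pool.Agent.Helper34.PN.AVG
import Pool.Agent.Helper70.FQ_RULE
import Pool.Agent.Helper70.FQ_MASS
import Pool.Agent.Helper82.FQ.Van

/-!
The approximate system of a weighted system of edges.
-/

namespace Pool.Agent.Helper34.FQ

open Finset Pool.Agent.Helper34.PN

theorem sys_ind_nonneg {Ω α : Type} (s : Ω → α → Fin 3) (x : α) (a : Fin 3) (ω : Ω) :
    0 ≤ ind s x a ω := by
  unfold ind
  split_ifs
  · exact zero_le_one
  · exact le_rfl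

theorem sys_ind_le_one {Ω α : Type} (s : Ω → α → Fin 3) (x : α) (a : Fin 3) (ω : Ω) :
    ind s x a ω ≤ 1 := by
  unfold ind
  split_ifs
  · exact le_rfl
  · exact zero_le_one

theorem sys_avg_nonneg {Ω α : Type} [Fintype Ω] (s : Ω → α → Fin 3) (S : Finset α) (x : α)
    (a : Fin 3) (ω : Ω) : 0 ≤ avg s S (ind s x a) ω := by
  unfold avg
  exact div_nonneg (sum_nonneg fun ω' _ => sys_ind_nonneg s x a ω') (Nat.cast_nonneg _)

theorem sys_avg_le_one {Ω α : Type} [Fintype Ω] (s : Ω → α → Fin 3) (S : Finset α) (x : α)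
    (a : Fin 3) (ω : Ω) : avg s S (ind s x a) ω ≤ 1 := by
  unfold avg
  apply div_le_one_of_le₀ _ (Nat.cast_nonneg _)
  calc ∑ ω' ∈ cls s S ω, ind s x a ω' ≤ ∑ _ω' ∈ cls s S ω, (1 : ℝ) :=
        sum_le_sum fun ω' _ => sys_ind_le_one s x a ω'
    _ = ((cls s S ω).card : ℝ) := by rw [sum_const, nsmul_eq_mul, mul_one]

theorem sys_wP_nonneg {Ω α J : Type} (s : Ω → α → Fin 3) (X : J → ℕ → α) (a : Fin 3)
    (P : Finset ℕ) (l : ℕ) (e : J) (ω : Ω) : 0 ≤ wP s X a P l e ω := by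
  unfold wP
  refine prod_nonneg fun i _ => ?_
  split_ifs
  · exact mul_nonneg (by norm_num) (sys_ind_nonneg _ _ _ _)
  · exact mul_nonneg (by norm_num) (sys_ind_nonneg _ _ _ _)

theorem sys_sum {Ω α J : Type} [Fintype Ω] [Fintype J] (s : Ω → α → Fin 3) (X : J → ℕ → α)
    (M : J → ℝ) (a : Fin 3) (P : Finset ℕ) (l : ℕ) (φ : J × Ω → ℝ) :
    ∑ x : J × Ω, M x.1 * wP s X a P l x.1 x.2 / (Fintype.card Ω : ℝ) * φ x
      = Af s X M a P l (fun e ω => φ (e, ω)) := by
  rw [Fintype.sum_prod_type]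
  unfold Af
  rw [sum_div]
  refine sum_congr rfl fun e _ => ?_
  rw [mul_sum, sum_div]
  refine sum_congr rfl fun ω _ => ?_
  ring

theorem lw_mono_right {α : Type} [LinearOrder α] (W : Finset α) {x y : α} (h : x ≤ y) :
    lw W x ⊆ lw W y := by
  intro z hz
  unfold lw at hz ⊢
  obtain ⟨h1, h2⟩ := mem_filter.1 hz
  exact mem_filter.2 ⟨h1, h2.trans h⟩

theorem sys_of_er {Ω α J : Type} [Fintype Ω] [Nonempty Ω] [LinearOrder α] [Fintype J]
    {s : Ω → α → Fin 3} {W : Finset α} {m r : ℕ} {X : J → ℕ → α} {M : J → ℝ} {τ τ' : ℝ}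
    (h : Er s W r X M τ) (hτ : 0 ≤ τ) (hr : 1 ≤ r) (a : Fin 3) (ha : a ≠ 0)
    (hno : ∀ e ω, ¬ (m ≤ ((pre X r e).filter (fun x => s ω x = a)).card ∧
      ∀ x ∈ pre X r e, s ω x = a ∨ s ω x = 0))
    (hττ : 2 ^ (r + 4) * (2 ^ m * 2) * τ ≤ τ') :
    Sys m r τ' (fun P (x : J × Ω) => M x.1 * wP s X a P r x.1 x.2 / (Fintype.card Ω : ℝ))
      (fun q x => fq s W X a q x.1 x.2) := by
  classical
  have hf0 : ∀ q (x : J × Ω), 0 ≤ fq s W X a q x.1 x.2 := fun q x =>
    mul_nonneg (by norm_num) (sys_avg_nonneg _ _ _ _ _)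
  have hf2 : ∀ q (x : J × Ω), fq s W X a q x.1 x.2 ≤ 2 := by
    intro q x
    unfold fq
    have := sys_avg_le_one s (lw W (X x.1 q)) (X x.1 q) a x.2
    linarith
  have hpow1 : (1 : ℝ) ≤ 2 ^ m := one_le_pow₀ (by norm_num)
  -- the test functions
  have hfb0 : ∀ (O : Finset ℕ) (x : J × Ω), 0 ≤ fb (fun q x => fq s W X a q x.1 x.2) O x := by
    intro O x
    unfold fb
    exact div_nonneg (sum_nonneg fun i _ => hf0 i x) (Nat.cast_nonneg _)
  have hfb2 : ∀ (O : Finset ℕ) (x : J × Ω), fb (fun q x => fq s W X a q x.1 x.2) O x ≤ 2 := by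
    intro O x
    unfold fb
    rcases O.eq_empty_or_nonempty with hO | hO
    · rw [hO, sum_empty, zero_div]
      norm_num
    · rw [div_le_iff₀ (by exact_mod_cast hO.card_pos)]
      calc ∑ i ∈ O, fq s W X a i x.1 x.2 ≤ ∑ _i ∈ O, (2 : ℝ) := sum_le_sum fun i _ => hf2 i x
        _ = 2 * (O.card : ℝ) := by rw [sum_const, nsmul_eq_mul, mul_comm]
  have hpsi : ∀ (O : Finset ℕ) (k : ℕ), k ≤ m → ∀ (e : J) (ω : Ω),
      |fb (fun q (x : J × Ω) => fq s W X a q x.1 x.2) O (e, ω) ^ k| ≤ 2 ^ m := by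
    intro O k hk e ω
    rw [abs_of_nonneg (pow_nonneg (hfb0 O _) _)]
    calc fb (fun q (x : J × Ω) => fq s W X a q x.1 x.2) O (e, ω) ^ k ≤ 2 ^ k :=
          pow_le_pow_left₀ (hfb0 O _) (hfb2 O _) _
      _ ≤ 2 ^ m := pow_le_pow_right₀ (by norm_num) hk
  have hmeas : ∀ (O : Finset ℕ) (k p : ℕ), O ⊆ range p → p < r → ∀ (e : J) (ω ω' : Ω),
      (∀ x ∈ lw W (X e p), s ω' x = s ω x) →
      fb (fun q (x : J × Ω) => fq s W X a q x.1 x.2) O (e, ω') ^ k
        = fb (fun q (x : J × Ω) => fq s W X a q x.1 x.2) O (e, ω) ^ k := by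
    intro O k p hO hp e ω ω' hω
    have h1 : fb (fun q (x : J × Ω) => fq s W X a q x.1 x.2) O (e, ω')
        = fb (fun q (x : J × Ω) => fq s W X a q x.1 x.2) O (e, ω) := by
      unfold fb
      congr 1
      refine sum_congr rfl fun i hi => ?_
      show 2 * avg s (lw W (X e i)) (ind s (X e i) a) ω'
        = 2 * avg s (lw W (X e i)) (ind s (X e i) a) ω
      rw [avg_meas s (lw W (X e i)) _ ω ω' fun x hx => hω x
        (lw_mono_right W (h.mono e i p (mem_range.1 (hO hi)) hp).le hx)]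
    rw [h1]
  refine ⟨?_, hf0, hf2, ?_, ?_, ?_, ?_⟩
  · intro P x
    exact div_nonneg (mul_nonneg (h.M0 _) (sys_wP_nonneg _ _ _ _ _ _ _)) (Nat.cast_nonneg _)
  · have h1 := mass_one h hτ hr a
    have h2 := sys_sum s X M a ∅ r (fun _ => 1)
    simp only [mul_one] at h2
    rw [h2]
    have h3 := (abs_le.1 h1).2
    have h4 : 2 ^ (r + 4) * τ ≤ τ' := by
      refine le_trans ?_ hττ
      have h5 : (2 : ℝ) ^ (r + 4) * τ * 1 ≤ 2 ^ (r + 4) * τ * (2 ^ m * 2) := by
        apply mul_le_mul_of_nonneg_left _ (by positivity)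
        linarith
      linarith
    linarith
  · intro P hP hc x
    have h1 := wP_van s X a ha m r x.1 x.2 (fun i j hij hj => h.mono x.1 i j hij hj)
      (hno x.1 x.2) P hP hc
    simp only [h1, mul_zero, zero_div]
  · intro P p O k hP hp hO hk
    have h1 := rule h hτ a P p 0 hP hp (by omega) (2 ^ m) 1 (by positivity) zero_le_one
      (fun e ω => fb (fun q (x : J × Ω) => fq s W X a q x.1 x.2) O (e, ω) ^ k)
      (fun _ _ => 1) (hpsi O k hk) (fun _ _ => by rw [abs_one])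
      (hmeas O k p hO hp) (fun _ _ _ _ => rfl)
    simp only [mul_one] at h1
    rw [sys_sum s X M a (insert p P) r
      (fun x => fb (fun q (x : J × Ω) => fq s W X a q x.1 x.2) O x ^ k),
      sys_sum s X M a P r
      (fun x => fb (fun q (x : J × Ω) => fq s W X a q x.1 x.2) O x ^ k * fq s W X a p x.1 x.2)]
    refine h1.trans (le_trans ?_ hττ)
    have h5 : (2 : ℝ) ^ (r + 4) * 2 ^ m * τ * 1 ≤ 2 ^ (r + 4) * 2 ^ m * τ * 2 := by
      apply mul_le_mul_of_nonneg_left _ (by positivity)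
      norm_num
    linarith
  · intro P p q O k hP hpq hq hO hk
    have hp : p < r := lt_trans hpq hq
    have h1 := rule h hτ a P p q hP hp hq (2 ^ m) 2 (by positivity) (by norm_num)
      (fun e ω => fb (fun q (x : J × Ω) => fq s W X a q x.1 x.2) O (e, ω) ^ k)
      (fun v ω => 2 * avg s (lw W v) (ind s v a) ω) (hpsi O k hk)
      (fun v ω => by
        have h2 := sys_avg_nonneg s (lw W v) v a ω
        have h3 := sys_avg_le_one s (lw W v) v a ω
        rw [abs_of_nonneg (by linarith)]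
        linarith)
      (hmeas O k p hO hp)
      (fun v ω ω' hω => by
        show 2 * avg s (lw W v) (ind s v a) ω' = 2 * avg s (lw W v) (ind s v a) ω
        rw [avg_meas s (lw W v) _ ω ω' hω])
    rw [sys_sum s X M a (insert p P) r
      (fun x => fb (fun q (x : J × Ω) => fq s W X a q x.1 x.2) O x ^ k * fq s W X a q x.1 x.2),
      sys_sum s X M a P r
      (fun x => fb (fun q (x : J × Ω) => fq s W X a q x.1 x.2) O x ^ k * fq s W X a p x.1 x.2
        * fq s W X a q x.1 x.2)]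
    exact h1.trans hττ

end Pool.Agent.Helper34.FQ
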