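import Pool.Agent.Helper61.FQ_MAXD
import Pool.Agent.Helper34.FQ.GAIN1
import Pool.Agent.Helper19.FQ_GAIN2
import Pool.Agent.Helper70.FQ_SEQ
import Pool.Agent.Helper18.FQ_NOISE
import Pool.Agent.Helper55.FQ_FRW
import Pool.Agent.Helper34.FQ.SYS
import Pool.Agent.Helper70.FQ_MASS
import Pool.Agent.Helper17.FQ.CHAIN

/-!
The branching theorem for ordered weighted systems.
-/

namespace Pool.Agent.Helper34.FQ

open Finset Pool.Agent.Helper34.PN

theorem er_of_dat (r : ℕ) (hr : 1 ≤ r) (τ : ℝ) (hτ : 0 < τ) : ∃ ε : ℝ, 0 < ε ∧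
    ∀ (α J : Type) [LinearOrder α] [Fintype J] (Z : Finset α) (X : J → ℕ → α) (M : J → ℝ)
      (D mx : α → ℝ) (s : ↥(Z.powerset) → α → Fin 3), Dat Z r ε X M D mx →
      (∀ (ω : ↥(Z.powerset)) (x : α), x ∈ Z → (s ω x = 0 ↔ x ∉ ω.1)) →
      ∃ W : Finset α, Er s W r X M τ := by
  have hr0 : (0 : ℝ) < r := by exact_mod_cast hr
  set c : ℝ := 10 * r / τ ^ 2 + 2 * r / τ with hc
  have hc0 : 0 < c := by positivity
  have hc1 : Real.sqrt (5 * r / (2 * c)) ≤ τ / 2 := by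
    apply Real.sqrt_le_iff.2
    refine ⟨by positivity, ?_⟩
    rw [div_le_iff₀ (by positivity)]
    have h1 : 10 * r / τ ^ 2 ≤ c := by
      rw [hc]
      have : 0 < 2 * (r : ℝ) / τ := by positivity
      linarith
    have h2 : (τ / 2) ^ 2 * (2 * (10 * r / τ ^ 2)) = 5 * r := by
      field_simp
      ring
    have h3 : (τ / 2) ^ 2 * (2 * (10 * r / τ ^ 2)) ≤ (τ / 2) ^ 2 * (2 * c) := by gcongr
    linarith
  have hc2 : r / c ≤ τ / 2 := by
    rw [div_le_iff₀ hc0]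
    have h1 : 2 * r / τ ≤ c := by
      rw [hc]
      have : 0 < 10 * (r : ℝ) / τ ^ 2 := by positivity
      linarith
    have h2 : τ / 2 * (2 * r / τ) = r := by
      field_simp
    have h3 : τ / 2 * (2 * r / τ) ≤ τ / 2 * c := by gcongr
    linarith
  set ρ : ℝ := min τ (τ ^ 2 / 4) with hρ
  have hρ0 : 0 < ρ := lt_min hτ (by positivity)
  have hρ1 : ρ ≤ τ := min_le_left _ _
  have hρ2 : ρ ≤ τ ^ 2 / 4 := min_le_right _ _
  set η : ℝ := min 1 (ρ ^ 2 / (4 * c * r)) with hη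
  have hη0 : 0 < η := lt_min one_pos (by positivity)
  have hη1 : η ≤ 1 := min_le_left _ _
  have hη2 : 2 * c * η * r ≤ ρ ^ 2 / 2 := by
    have h1 : η ≤ ρ ^ 2 / (4 * c * r) := min_le_right _ _
    rw [le_div_iff₀ (by positivity)] at h1
    linarith
  have hinv1 : 1 ≤ 1 / η := by
    rw [le_div_iff₀ hη0]
    linarith
  have hinv0 : 0 < 1 / η := by positivity
  set ε : ℝ := min (τ ^ 2 / 2) (ρ ^ 2 / (16 * r * (1 / η) ^ (2 * r))) with hε
  have hε0 : 0 < ε := lt_min (by positivity) (by positivity)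
  have hε1 : ε ≤ τ ^ 2 / 2 := min_le_left _ _
  have hε2 : 2 * (1 / η) ^ (2 * r) * (4 * r * ε) ≤ ρ ^ 2 / 2 := by
    have h1 : ε ≤ ρ ^ 2 / (16 * r * (1 / η) ^ (2 * r)) := min_le_right _ _
    rw [le_div_iff₀ (by positivity)] at h1
    linarith
  have hε3 : 2 * (1 / η) ^ r * (r * ε) ≤ ρ ^ 2 / 2 := by
    have h1 : (1 / η) ^ r ≤ (1 / η) ^ (2 * r) := pow_le_pow_right₀ hinv1 (by omega)
    have h2 : 2 * (1 / η) ^ r * (r * ε) ≤ 2 * (1 / η) ^ (2 * r) * (4 * r * ε) := by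
      have h3 : (r : ℝ) * ε ≤ 4 * r * ε := by nlinarith [mul_pos hr0 hε0]
      gcongr
    linarith
  refine ⟨ε, hε0, ?_⟩
  intro α J _ _ Z X M D mx s hd hs
  have : Nonempty ↥(Z.powerset) := ⟨⟨∅, empty_mem_powerset _⟩⟩
  obtain ⟨W, hW⟩ := exists_maxD s Z D (fun x _ => hd.D0 x) c hc0
  refine ⟨W, ?_⟩
  have hN : (0 : ℝ) ≤ (Fintype.card ↥(Z.powerset) : ℝ) := Nat.cast_nonneg _
  have hsq : Real.sqrt (ρ ^ 2) = ρ := Real.sqrt_sq hρ0.le
  have hg1 : ∀ q, q < r → ∑ e, M e * (energy s (X e q) (lw (W ∪ pre X q e) (X e q))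
        - energy s (X e q) (lw W (X e q))) ≤ ρ ^ 2 * (Fintype.card ↥(Z.powerset) : ℝ) := by
    intro q hq
    refine (gain1 hd hW hc0.le η hη0 hη1 q hq).trans ?_
    apply mul_le_mul_of_nonneg_right _ hN
    linarith
  have hg2 : ∀ q q', q < q' → q' < r →
      ∑ e, ∑ e', (if X e q' = X e' q' ∧ X e' q < X e q then
        M e * M e' / dq X M q' (X e q') *
          (energy s (X e q) (lw (W ∪ (pre X q e ∪ pre X (q + 1) e')) (X e q))
            - energy s (X e q) (lw W (X e q))) else 0)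
      ≤ ρ ^ 2 * (Fintype.card ↥(Z.powerset) : ℝ) := by
    intro q q' hq hq'
    refine (gain2 hd hW hc0.le η hη0 hη1 q q' hq hq').trans ?_
    apply mul_le_mul_of_nonneg_right _ hN
    linarith
  refine ⟨hd.M0, hd.M1, hd.mono, ?_, ?_, ?_⟩
  · intro a q B ψ hq hB0 hB hψ
    refine (seq_err hd a q hq B hB0 ψ hB hψ (ρ ^ 2) (hg1 q hq)).trans ?_
    rw [hsq]
    gcongr
  · intro a q q' B B' ψ φ hq hq' hB0 hB0' hB hB' hψ
    refine (noise_err hd a q q' hq hq' B B' hB0 hB0' ψ φ hB hB' hψ (ρ ^ 2)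
      (hg2 q q' hq hq')).trans ?_
    rw [hsq]
    have h1 : Real.sqrt (2 * ρ + ε) ≤ τ := by
      apply Real.sqrt_le_iff.2
      exact ⟨hτ.le, by linarith⟩
    gcongr
  · intro q hq
    refine (frw s hd hs hW hc0 q hq).trans ?_
    apply mul_le_mul_of_nonneg_left _ hN
    linarith

theorem branch_dat (m : ℕ) (hm : 1 ≤ m) : ∃ (r : ℕ) (ε : ℝ), 1 ≤ r ∧ 0 < ε ∧
    ∀ (α J : Type) [LinearOrder α] [Fintype J] (Z : Finset α) (X : J → ℕ → α) (M : J → ℝ)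
      (D mx : α → ℝ), Dat Z r ε X M D mx →
      ¬ (∀ Y : Finset α, Y ⊆ Z → ∃ R : Finset α, R ⊆ Y ∧ ∀ e : J,
          m ≤ (pre X r e ∩ Y).card →
          (pre X r e ∩ R).Nonempty ∧ (pre X r e ∩ (Y \ R)).Nonempty) := by
  classical
  obtain ⟨r, τ, hr, hτ, hchain⟩ := chain m hm
  set A0 : ℝ := 2 ^ (r + 4) * (2 ^ m * 2) with hA0
  have hA0p : 0 < A0 := by positivity
  obtain ⟨ε, hε, her⟩ := er_of_dat r hr (τ / A0) (by positivity)
  refine ⟨r, ε, hr, hε, ?_⟩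
  intro α J _ _ Z X M D mx hd hcol
  choose! R hR1 hR2 using hcol
  set s : ↥(Z.powerset) → α → Fin 3 :=
    fun ω x => if x ∉ ω.1 then 0 else if x ∈ R ω.1 then 1 else 2 with hs
  have hs0 : ∀ (ω : ↥(Z.powerset)) (x : α), s ω x = 0 ↔ x ∉ ω.1 := by
    intro ω x
    simp only [hs]
    by_cases h1 : x ∈ ω.1
    · by_cases h2 : x ∈ R ω.1
      · simp [h1, h2]
      · simp [h1, h2]
    · simp [h1]
  have hs1 : ∀ (ω : ↥(Z.powerset)) (x : α), s ω x = 1 ↔ x ∈ R ω.1 := by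
    intro ω x
    have hsub := hR1 ω.1 (mem_powerset.1 ω.2)
    simp only [hs]
    by_cases h1 : x ∈ ω.1
    · by_cases h2 : x ∈ R ω.1
      · simp [h1, h2]
      · simp [h1, h2]
    · have h2 : x ∉ R ω.1 := fun h => h1 (hsub h)
      simp [h1, h2]
  have hs2 : ∀ (ω : ↥(Z.powerset)) (x : α), s ω x = 2 ↔ x ∈ ω.1 \ R ω.1 := by
    intro ω x
    simp only [hs, mem_sdiff]
    by_cases h1 : x ∈ ω.1
    · by_cases h2 : x ∈ R ω.1
      · simp [h1, h2]
      · simp [h1, h2]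
    · simp [h1]
  obtain ⟨W, hW⟩ := her α J Z X M D mx s hd (fun ω x _ => hs0 ω x)
  have : Nonempty ↥(Z.powerset) := ⟨⟨∅, empty_mem_powerset _⟩⟩
  have hno : ∀ a : Fin 3, a ≠ 0 → ∀ (e : J) (ω : ↥(Z.powerset)),
      ¬ (m ≤ ((pre X r e).filter (fun x => s ω x = a)).card ∧
        ∀ x ∈ pre X r e, s ω x = a ∨ s ω x = 0) := by
    intro a ha e ω h
    have h1 : m ≤ (pre X r e ∩ ω.1).card := by
      refine h.1.trans (card_le_card ?_)
      intro x hx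
      obtain ⟨hx1, hx2⟩ := mem_filter.1 hx
      refine mem_inter.2 ⟨hx1, ?_⟩
      by_contra hcon
      rw [(hs0 ω x).2 hcon] at hx2
      exact ha hx2.symm
    obtain ⟨⟨x, hx⟩, ⟨y, hy⟩⟩ := hR2 ω.1 (mem_powerset.1 ω.2) e h1
    obtain ⟨hx1, hx2⟩ := mem_inter.1 hx
    obtain ⟨hy1, hy2⟩ := mem_inter.1 hy
    have hx3 := (hs1 ω x).2 hx2
    have hy3 := (hs2 ω y).2 hy2
    have hx4 := h.2 x hx1
    have hy4 := h.2 y hy1
    rw [hx3] at hx4
    rw [hy3] at hy4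
    rcases hx4 with hx5 | hx5
    · rcases hy4 with hy5 | hy5
      · rw [← hx5] at hy5
        exact absurd hy5 (by decide)
      · exact absurd hy5 (by decide)
    · exact absurd hx5 (by decide)
  have hττ : 2 ^ (r + 4) * (2 ^ m * 2) * (τ / A0) ≤ τ := by
    rw [← hA0]
    rw [mul_div_cancel₀ _ hA0p.ne']
  have hτ0 : 0 ≤ τ / A0 := by positivity
  have hsys1 := sys_of_er hW hτ0 hr (1 : Fin 3) (by decide) (hno 1 (by decide)) hττ
  have hsys2 := sys_of_er hW hτ0 hr (2 : Fin 3) (by decide) (hno 2 (by decide)) hττ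
  have hτs : 2 ^ (r + 4) * (τ / A0) ≤ τ := by
    refine le_trans ?_ hττ
    have h1 : (1 : ℝ) ≤ 2 ^ m * 2 := by
      have : (1 : ℝ) ≤ 2 ^ m := one_le_pow₀ (by norm_num)
      linarith
    have h2 : (2 : ℝ) ^ (r + 4) * (τ / A0) * 1 ≤ 2 ^ (r + 4) * (τ / A0) * (2 ^ m * 2) := by
      gcongr
    linarith
  have hcard : (0 : ℝ) < (Fintype.card ↥(Z.powerset) : ℝ) := by exact_mod_cast Fintype.card_pos
  have hsum : ∀ φ : J → ↥(Z.powerset) → ℝ,
      ∑ x : J × ↥(Z.powerset), M x.1 * wP s X 1 ∅ r x.1 x.2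
        / (Fintype.card ↥(Z.powerset) : ℝ) * φ x.1 x.2 = Af s X M 1 ∅ r φ := by
    intro φ
    rw [Fintype.sum_prod_type]
    unfold Af
    rw [sum_div]
    refine sum_congr rfl fun e _ => ?_
    rw [mul_sum, sum_div]
    refine sum_congr rfl fun ω _ => ?_
    ring
  refine hchain (J × ↥(Z.powerset)) _ _ _ _ hsys1 hsys2 ?_ ?_ ?_
  · funext x
    unfold wP
    simp
  · have h1 := mass_one hW hτ0 hr 1
    have h2 := (abs_le.1 (h1.trans hτs)).1
    have h3 := hsum (fun _ _ => 1)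
    simp only [mul_one] at h3
    rw [h3]
    linarith
  · intro q hq
    have h1 := mass_diff hW hτ0 q hq 1
    have h3 := hsum (fun e ω => |fq s W X 1 q e ω + fq s W X 2 q e ω - 1|)
    rw [h3]
    linarith

end Pool.Agent.Helper34.FQ
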