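import Pool.Agent.Helper34.FQ.RECUR
import Pool.Agent.Helper70.FQ_GAPC
import Pool.Agent.Helper28.FQ_MMX

/-!
The distribution on hitting sets (minimax over costs).
-/

namespace Pool.Agent.Helper34.FQ

open Finset Pool.Agent.Helper34.PN

theorem frac (m : ℕ) (hm : 1 ≤ m) : ∃ C : ℝ, 0 < C ∧
    ∀ (α : Type) [DecidableEq α] (X : Finset α) (H : Finset (Finset α)) (w : α → ℝ) (t : ℝ),
      Good X H m → (∀ x ∈ X, 0 ≤ w x) → 0 < t →
      ∃ v : Finset α → ℝ, (∀ T, 0 ≤ v T) ∧ ∑ T ∈ X.powerset, v T = 1 ∧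
        (∀ T ∈ X.powerset, v T ≠ 0 →
          ∀ E ∈ H, t ≤ ∑ x ∈ X.filter (fun x => x ∈ E), w x → (E ∩ T).Nonempty) ∧
        ∀ x ∈ X, t * ∑ T ∈ X.powerset.filter (fun T => x ∈ T), v T ≤ C * w x := by
  classical
  obtain ⟨C, hC1, hnets⟩ := nets_cost m hm
  have hC0 : 0 < C := by linarith
  have hgap := gap_cost m C hC0.le hnets
  refine ⟨2 * C, by positivity, ?_⟩
  intro α _ X H w t hG hw ht
  set 𝒯 : Finset (Finset α) := X.powerset.filter (fun T =>
    ∀ E ∈ H, t ≤ ∑ x ∈ X.filter (fun x => x ∈ E), w x → (E ∩ T).Nonempty) with h𝒯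
  obtain ⟨v, hv0, hv1, hv2⟩ := minimax (J := ↥𝒯) (ι := ↥X)
    (fun T x => if x.1 ∈ T.1 then (1 : ℝ) else 0) (fun x => 2 * C * (w x.1 / t)) (by
      intro z hz
      obtain ⟨T, hTX, hTc, hT⟩ := hgap α X H (fun x => w x / t)
        (fun x => if h : x ∈ X then z ⟨x, h⟩ else 0) hG (fun x hx => div_nonneg (hw x hx) ht.le)
        (fun x => by
          split_ifs with h
          · exact hz _
          · exact le_rfl)
      have hT𝒯 : T ∈ 𝒯 := by
        refine mem_filter.2 ⟨mem_powerset.2 hTX, ?_⟩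
        intro E hE hEt
        refine hT E hE ?_
        rw [← sum_div, le_div_iff₀ ht, one_mul]
        exact hEt
      refine ⟨⟨T, hT𝒯⟩, ?_⟩
      have h1 : ∑ x ∈ T, (if h : x ∈ X then z ⟨x, h⟩ else 0)
          = ∑ i : ↥X, z i * (if i.1 ∈ T then (1 : ℝ) else 0) := by
        have h2 : ∑ x ∈ T, (if h : x ∈ X then z ⟨x, h⟩ else 0)
            = ∑ x ∈ X, (if x ∈ T then (if h : x ∈ X then z ⟨x, h⟩ else 0) else 0) := by
          rw [← sum_filter]
          refine sum_congr ?_ fun _ _ => rfl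
          ext x
          simp only [mem_filter]
          exact ⟨fun h => ⟨hTX h, h⟩, fun h => h.2⟩
        rw [h2, ← sum_coe_sort X]
        refine sum_congr rfl fun i _ => ?_
        rw [dif_pos i.2]
        split_ifs
        · rw [mul_one]
        · rw [mul_zero]
      have h3 : 2 * C * ∑ x ∈ X, w x / t * (if h : x ∈ X then z ⟨x, h⟩ else 0)
          = ∑ i : ↥X, z i * (2 * C * (w i.1 / t)) := by
        rw [← sum_coe_sort X, mul_sum]
        refine sum_congr rfl fun i _ => ?_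
        rw [dif_pos i.2]
        ring
      rw [← h1, ← h3]
      exact hTc)
  refine ⟨fun T => if h : T ∈ 𝒯 then v ⟨T, h⟩ else 0, ?_, ?_, ?_, ?_⟩
  · intro T
    simp only
    split_ifs with h
    · exact hv0 _
    · exact le_rfl
  · rw [← sum_subset (filter_subset _ _ : 𝒯 ⊆ X.powerset)
      (fun T _ hT => by rw [dif_neg hT]), ← sum_coe_sort 𝒯, ← hv1]
    exact sum_congr rfl fun T _ => by rw [dif_pos T.2]
  · intro T _ hT
    have h1 : T ∈ 𝒯 := by
      by_contra hcon
      simp only [dif_neg hcon] at hT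
      exact hT rfl
    exact (mem_filter.1 h1).2
  · intro x hx
    have h1 : ∑ T ∈ X.powerset.filter (fun T => x ∈ T), (if h : T ∈ 𝒯 then v ⟨T, h⟩ else 0)
        = ∑ T : ↥𝒯, v T * (if x ∈ T.1 then (1 : ℝ) else 0) := by
      rw [sum_filter]
      rw [← sum_subset (filter_subset _ _ : 𝒯 ⊆ X.powerset)
        (fun T _ hT => by
          rw [dif_neg hT]
          exact ite_self _), ← sum_coe_sort 𝒯]
      refine sum_congr rfl fun T _ => ?_
      rw [dif_pos T.2]
      split_ifs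
      · rw [mul_one]
      · rw [mul_zero]
    rw [h1]
    have h2 : ∑ T : ↥𝒯, v T * (if x ∈ T.1 then (1 : ℝ) else 0) ≤ 2 * C * (w x / t) :=
      hv2 ⟨x, hx⟩
    calc t * ∑ T : ↥𝒯, v T * (if x ∈ T.1 then (1 : ℝ) else 0)
        ≤ t * (2 * C * (w x / t)) := mul_le_mul_of_nonneg_left h2 ht.le
      _ = 2 * C * w x := by
          field_simp

end Pool.Agent.Helper34.FQ
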