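import Pool.Agent.Helper34.PN.Defs

/-!
Fractional polychromatic colourings (problem MP_08bd45_co): common definitions.
-/

namespace Pool.Agent.Helper34.FQ

open Finset Pool.Agent.Helper34.PN

/-- the part of `W` up to `x` -/
def lw {α : Type} [LinearOrder α] (W : Finset α) (x : α) : Finset α :=
  W.filter (fun y => y ≤ x)

/-- the vertices of the edge `e` at the positions below `q` -/
def pre {α J : Type} [DecidableEq α] (X : J → ℕ → α) (q : ℕ) (e : J) : Finset α :=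
  (range q).image (X e)

/-- the weight of the edges whose vertex at position `q` is `v` -/
noncomputable def dq {α J : Type} [DecidableEq α] [Fintype J] (X : J → ℕ → α) (M : J → ℝ)
    (q : ℕ) (v : α) : ℝ :=
  ∑ e ∈ univ.filter (fun e => X e q = v), M e

/-- weighted `r`-uniform edges `X e 0 < X e 1 < ... < X e (r-1)` with total weight one, degrees at
most `D` (antitone along the order) and small pair degrees -/
structure Dat {α J : Type} [LinearOrder α] [Fintype J] (Z : Finset α) (r : ℕ) (ε : ℝ)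
    (X : J → ℕ → α) (M : J → ℝ) (D mx : α → ℝ) : Prop where
  mem : ∀ e i, i < r → X e i ∈ Z
  mono : ∀ e i j, i < j → j < r → X e i < X e j
  M0 : ∀ e, 0 ≤ M e
  M1 : ∑ e, M e = 1
  D0 : ∀ x, 0 ≤ D x
  De : ∀ x, ∑ e ∈ univ.filter (fun e => x ∈ pre X r e), M e ≤ D x
  Ds : ∑ x ∈ Z, D x ≤ r
  Da : ∀ x ∈ Z, ∀ y ∈ Z, x ≤ y → D y ≤ D x
  mx0 : ∀ x, 0 ≤ mx x
  mxe : ∀ x z, x ≠ z →
    ∑ e ∈ univ.filter (fun e => x ∈ pre X r e ∧ z ∈ pre X r e), M e ≤ mx x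
  mxs : ∑ x ∈ Z, mx x ≤ ε

/-- the properties of the revealed set `W` -/
structure Wd {Ω α : Type} [Fintype Ω] [LinearOrder α] (s : Ω → α → Fin 3) (Z W : Finset α)
    (D : α → ℝ) (c : ℝ) : Prop where
  sub : W ⊆ Z
  cost : c * ∑ x ∈ W, D x ≤ ∑ x ∈ Z, D x
  max : ∀ V : Finset α, V ⊆ Z →
    ∑ x ∈ Z, D x * (energy s x (lw (W ∪ V) x) - energy s x (lw W x))
      ≤ c * (∑ x ∈ V, D x) * (Fintype.card Ω : ℝ)

/-- weight of the event that the vertices of `e` at the positions below `l` have status `a` on `P`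
and status `0` off `P` -/
noncomputable def wP {Ω α J : Type} (s : Ω → α → Fin 3) (X : J → ℕ → α) (a : Fin 3)
    (P : Finset ℕ) (l : ℕ) (e : J) (ω : Ω) : ℝ :=
  ∏ i ∈ range l, 2 * (if i ∈ P then ind s (X e i) a ω else ind s (X e i) 0 ω)

/-- the functional `A_{P,l}` -/
noncomputable def Af {Ω α J : Type} [Fintype Ω] [Fintype J] (s : Ω → α → Fin 3)
    (X : J → ℕ → α) (M : J → ℝ) (a : Fin 3) (P : Finset ℕ) (l : ℕ) (φ : J → Ω → ℝ) : ℝ :=
  (∑ e, M e * ∑ ω, wP s X a P l e ω * φ e ω) / (Fintype.card Ω : ℝ)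

/-- twice the conditional probability that the vertex of `e` at position `q` has status `a` -/
noncomputable def fq {Ω α J : Type} [Fintype Ω] [LinearOrder α] (s : Ω → α → Fin 3)
    (W : Finset α) (X : J → ℕ → α) (a : Fin 3) (q : ℕ) (e : J) (ω : Ω) : ℝ :=
  2 * avg s (lw W (X e q)) (ind s (X e q) a) ω

/-- the three error estimates -/
structure Er {Ω α J : Type} [Fintype Ω] [LinearOrder α] [Fintype J] (s : Ω → α → Fin 3)
    (W : Finset α) (r : ℕ) (X : J → ℕ → α) (M : J → ℝ) (τ : ℝ) : Prop where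
  M0 : ∀ e, 0 ≤ M e
  M1 : ∑ e, M e = 1
  mono : ∀ e i j, i < j → j < r → X e i < X e j
  seq : ∀ (a : Fin 3) (q : ℕ) (B : ℝ) (ψ : J → Ω → ℝ), q < r → 0 ≤ B →
    (∀ e ω, |ψ e ω| ≤ B) →
    (∀ e ω ω', (∀ x ∈ lw W (X e q) ∪ pre X q e, s ω' x = s ω x) → ψ e ω' = ψ e ω) →
    ∑ e, M e * |∑ ω, ψ e ω *
        (ind s (X e q) a ω - avg s (lw W (X e q)) (ind s (X e q) a) ω)|
      ≤ B * (Fintype.card Ω : ℝ) * τ
  noise : ∀ (a : Fin 3) (q q' : ℕ) (B B' : ℝ) (ψ : J → Ω → ℝ) (φ : α → Ω → ℝ),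
    q < q' → q' < r → 0 ≤ B → 0 ≤ B' → (∀ e ω, |ψ e ω| ≤ B) → (∀ v ω, |φ v ω| ≤ B') →
    (∀ e ω ω', (∀ x ∈ lw W (X e q) ∪ pre X q e, s ω' x = s ω x) → ψ e ω' = ψ e ω) →
    ∑ e, M e * |∑ ω, ψ e ω *
        (ind s (X e q) a ω - avg s (lw W (X e q)) (ind s (X e q) a) ω) * φ (X e q') ω|
      ≤ B * B' * (Fintype.card Ω : ℝ) * τ
  frw : ∀ q, q < r →
    ∑ e, M e * ∑ ω, |1 - 2 * avg s (lw W (X e q)) (ind s (X e q) 0) ω|
      ≤ (Fintype.card Ω : ℝ) * τ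

/-- the average of the functions `f i`, `i ∈ O` -/
noncomputable def fb {E : Type} (f : ℕ → E → ℝ) (O : Finset ℕ) (x : E) : ℝ :=
  (∑ i ∈ O, f i x) / (O.card : ℝ)

/-- an approximate system: positive weights `μ P` for finite sets `P` of positions and densities
`f q` such that adding a position `p` above `P` amounts to multiplying by `f p` -/
structure Sys {E : Type} [Fintype E] (m r : ℕ) (τ : ℝ) (μ : Finset ℕ → E → ℝ)
    (f : ℕ → E → ℝ) : Prop where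
  mu0 : ∀ P x, 0 ≤ μ P x
  f0 : ∀ q x, 0 ≤ f q x
  f2 : ∀ q x, f q x ≤ 2
  one : ∑ x, μ ∅ x ≤ 1 + τ
  van : ∀ P : Finset ℕ, P ⊆ range r → P.card = m → ∀ x, μ P x = 0
  rule1 : ∀ (P : Finset ℕ) (p : ℕ) (O : Finset ℕ) (k : ℕ), P ⊆ range p → p < r →
    O ⊆ range p → k ≤ m →
    |∑ x, μ (insert p P) x * fb f O x ^ k - ∑ x, μ P x * (fb f O x ^ k * f p x)| ≤ τ
  rule2 : ∀ (P : Finset ℕ) (p q : ℕ) (O : Finset ℕ) (k : ℕ), P ⊆ range p → p < q → q < r →
    O ⊆ range p → k ≤ m →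
    |∑ x, μ (insert p P) x * (fb f O x ^ k * f q x)
      - ∑ x, μ P x * (fb f O x ^ k * f p x * f q x)| ≤ τ

/-- the branching property: an `r`-uniform weighted system in which every vertex set has a
two-colouring with threshold `m` has a map `ζ` catching an `ε` fraction of the weight -/
def BranchAt (m r : ℕ) (ε : ℝ) : Prop :=
  ∀ (α : Type) [DecidableEq α] (Z : Finset α) (L : Finset (Finset α)) (M : Finset α → ℝ),
    (∀ e ∈ L, e ⊆ Z) → (∀ e ∈ L, e.card = r) → (∀ e ∈ L, 0 ≤ M e) → Good Z L m →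
    ∃ ζ : α → α, ε * ∑ e ∈ L, M e
      ≤ ∑ c ∈ Z, ∑ e ∈ L.filter (fun e => c ∈ e ∧ ζ c ∈ e ∧ ζ c ≠ c), M e

end Pool.Agent.Helper34.FQ
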