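import Pool.Agent.Helper34.FQ.SPD
import Pool.Agent.Helper19.FQ_NETP
import Pool.Agent.Helper55.PN_WTS

/-!
One scale: a cheap random set and a cheap exceptional set.
-/

namespace Pool.Agent.Helper34.FQ

open Finset Pool.Agent.Helper34.PN

theorem exists_le_of_wt {α : Type} [DecidableEq α] (X : Finset α) (p : ℝ) (h0 : 0 ≤ p)
    (h1 : p ≤ 1) (F : Finset α → ℝ) (A : ℝ)
    (h : ∑ T ∈ X.powerset, wt X p T * F T ≤ A) : ∃ T ∈ X.powerset, F T ≤ A := by
  by_contra hcon
  push Not at hcon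
  have hsum := wt_sum X p
  have hnn : ∀ T ∈ X.powerset, 0 ≤ wt X p T * (F T - A) := fun T hT =>
    mul_nonneg (wt_nonneg X p h0 h1 T) (by linarith [hcon T hT])
  have h2 : ∑ T ∈ X.powerset, wt X p T * (F T - A) ≤ 0 := by
    have h3 : ∑ T ∈ X.powerset, wt X p T * (F T - A)
        = ∑ T ∈ X.powerset, wt X p T * F T - (∑ T ∈ X.powerset, wt X p T) * A := by
      rw [sum_mul, ← sum_sub_distrib]
      exact sum_congr rfl fun T _ => by ring
    rw [h3, hsum]
    linarith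
  have h4 : ∑ T ∈ X.powerset, wt X p T * (F T - A) = 0 := le_antisymm h2 (sum_nonneg hnn)
  have h5 := (sum_eq_zero_iff_of_nonneg hnn).1 h4
  have h6 : ∀ T ∈ X.powerset, wt X p T = 0 := by
    intro T hT
    rcases mul_eq_zero.1 (h5 T hT) with h7 | h7
    · exact h7
    · linarith [hcon T hT]
  rw [sum_eq_zero h6] at hsum
  exact zero_ne_one hsum

theorem wt_sum_cost {α : Type} [DecidableEq α] (X : Finset α) (p : ℝ) (z : α → ℝ) :
    ∑ T ∈ X.powerset, wt X p T * ∑ x ∈ T, z x = p * ∑ x ∈ X, z x := by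
  have h1 : ∀ T ∈ X.powerset, wt X p T * ∑ x ∈ T, z x
      = ∑ x ∈ X, (if x ∈ T then wt X p T * z x else 0) := by
    intro T hT
    rw [mul_sum, ← sum_filter]
    refine sum_congr ?_ fun _ _ => rfl
    ext x
    simp only [mem_filter]
    exact ⟨fun h => ⟨mem_powerset.1 hT h, h⟩, fun h => h.2⟩
  rw [sum_congr rfl h1, sum_comm, mul_sum]
  refine sum_congr rfl fun x hx => ?_
  have h2 := wt_sum_superset X {x} (singleton_subset_iff.2 hx) p
  rw [card_singleton, pow_one] at h2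
  calc ∑ T ∈ X.powerset, (if x ∈ T then wt X p T * z x else 0)
      = (∑ V ∈ X.powerset.filter (fun V => {x} ⊆ V), wt X p V) * z x := by
        rw [sum_mul, sum_filter]
        refine sum_congr rfl fun T _ => ?_
        simp only [singleton_subset_iff]
    _ = p * z x := by rw [h2]

theorem one_cost (m : ℕ) (hm : 1 ≤ m) : ∃ ε₁ : ℝ, 0 < ε₁ ∧ ∀ τ : ℝ, 0 < τ →
    ∃ (Λ : ℝ) (s0 : ℕ), 0 < Λ ∧ 1 ≤ s0 ∧
      ∀ (α : Type) [DecidableEq α] (X : Finset α) (H : Finset (Finset α)) (s : ℕ)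
        (z : α → ℝ), s0 ≤ s → (∀ E ∈ H, E ⊆ X) → Good X H m →
        (∀ E ∈ H, s ≤ E.card ∧ E.card ≤ 2 * s) → (∀ x, 0 ≤ z x) →
        ∃ T X₁ : Finset α, T ⊆ X ∧ X₁ ⊆ X ∧ (s : ℝ) * ∑ x ∈ T, z x ≤ Λ * ∑ x ∈ X, z x ∧
          ∑ x ∈ X₁, z x ≤ τ * ∑ x ∈ X, z x ∧
          ∀ E ∈ H, (E ∩ T).Nonempty ∨ ε₁ * s ≤ ((E ∩ X₁).card : ℝ) := by
  classical
  obtain ⟨σ, ε, s1, hσ, hε, hspd⟩ := spread_dist m hm
  refine ⟨ε / 2, by positivity, fun τ hτ => ?_⟩
  set δ : ℝ := τ * ε / 8 with hδ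
  have hδ0 : 0 < δ := by positivity
  obtain ⟨l, s2, hl, hls, hnet⟩ := netp m hm σ δ hσ hδ0
  have hl0 : (0 : ℝ) < l := by exact_mod_cast hl
  refine ⟨2 * l, max (max s1 s2) 1, by positivity, le_max_right _ _, ?_⟩
  intro α _ X H s z hs hX hG hsz hz
  have hss1 : s1 ≤ s := (le_max_left _ _).trans ((le_max_left _ _).trans hs)
  have hss2 : s2 ≤ s := (le_max_right _ _).trans ((le_max_left _ _).trans hs)
  have hs1 : 1 ≤ s := (le_max_right _ _).trans hs
  have hs0 : (0 : ℝ) < s := by exact_mod_cast hs1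
  have hZ0 : 0 ≤ ∑ x ∈ X, z x := sum_nonneg fun x _ => hz x
  rcases H.eq_empty_or_nonempty with hHe | hne
  · refine ⟨∅, ∅, empty_subset _, empty_subset _, ?_, ?_, ?_⟩
    · rw [sum_empty, mul_zero]
      positivity
    · rw [sum_empty]
      positivity
    · intro E hE
      rw [hHe] at hE
      exact absurd hE (notMem_empty _)
  obtain ⟨π, hπ0, hπ1, hπ2⟩ := hspd α X H s hss1 hX hG hsz hne
  set p : ℝ := (l : ℝ) / s with hp
  have hp0 : 0 ≤ p := by positivity
  have hp1 : p ≤ 1 := by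
    rw [hp, div_le_one hs0]
    exact_mod_cast hls.trans hss2
  set bad : Finset α → Finset (Finset α) :=
    fun T => H.filter (fun E => ∃ S ∈ H, σ * s ≤ ((S ∩ E).card : ℝ) ∧ Disjoint (S ∩ E) T)
    with hbad
  set X1 : Finset α → Finset α :=
    fun T => X.filter (fun c => ε / 4 ≤ ∑ E ∈ bad T, π c E) with hX1
  set ZX : ℝ := ∑ x ∈ X, z x with hZX
  -- the average cost of the exceptional set
  have hav2 : ∑ T ∈ X.powerset, wt X p T * ∑ x ∈ X1 T, z x ≤ 4 * δ / ε * ZX := by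
    have h1 : ∀ T ∈ X.powerset, wt X p T * ∑ x ∈ X1 T, z x
        ≤ ∑ x ∈ X, ∑ E ∈ H, 4 / ε * z x * π x E *
          (if E ∈ bad T then wt X p T else 0) := by
      intro T _
      have hw := wt_nonneg X p hp0 hp1 T
      rw [hX1]
      simp only
      rw [sum_filter, mul_sum]
      refine sum_le_sum fun x _ => ?_
      have h2 : ∑ E ∈ H, 4 / ε * z x * π x E * (if E ∈ bad T then wt X p T else 0)
          = 4 / ε * z x * wt X p T * ∑ E ∈ bad T, π x E := by
        rw [mul_sum]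
        have h3 : bad T = H.filter (fun E => E ∈ bad T) := by
          ext E
          simp only [mem_filter]
          exact ⟨fun h => ⟨(mem_filter.1 h).1, h⟩, fun h => h.2⟩
        conv_rhs => rw [h3]
        rw [sum_filter]
        refine sum_congr rfl fun E _ => ?_
        split_ifs
        · ring
        · ring
      rw [h2]
      split_ifs with h
      · have h4 : 1 ≤ 4 / ε * ∑ E ∈ bad T, π x E := by
          have h5 : 4 / ε * (ε / 4) = 1 := by
            field_simp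
          calc (1 : ℝ) = 4 / ε * (ε / 4) := h5.symm
            _ ≤ 4 / ε * ∑ E ∈ bad T, π x E := mul_le_mul_of_nonneg_left h (by positivity)
        have h6 : 0 ≤ wt X p T * z x := mul_nonneg hw (hz x)
        calc wt X p T * z x = wt X p T * z x * 1 := by ring
          _ ≤ wt X p T * z x * (4 / ε * ∑ E ∈ bad T, π x E) :=
              mul_le_mul_of_nonneg_left h4 h6
          _ = 4 / ε * z x * wt X p T * ∑ E ∈ bad T, π x E := by ring
      · rw [mul_zero]
        have h7 : 0 ≤ ∑ E ∈ bad T, π x E := sum_nonneg fun E _ => hπ0 x E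
        have h8 := hz x
        positivity
    refine (sum_le_sum h1).trans ?_
    rw [sum_comm, hZX, mul_sum]
    refine sum_le_sum fun x _ => ?_
    rw [sum_comm]
    have h9 : ∀ E ∈ H, ∑ T ∈ X.powerset, 4 / ε * z x * π x E *
        (if E ∈ bad T then wt X p T else 0) ≤ 4 / ε * z x * π x E * δ := by
      intro E hE
      rw [← mul_sum]
      have h10 := hz x
      have h11 := hπ0 x E
      refine mul_le_mul_of_nonneg_left ?_ (by positivity)
      refine le_trans (le_of_eq ?_) (hnet α X H s hss2 hG E (hX E hE) (hsz E hE).1 (hsz E hE).2)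
      rw [← sum_filter]
      refine sum_congr ?_ fun _ _ => rfl
      refine filter_congr fun T _ => ?_
      rw [hbad]
      simp only [mem_filter]
      exact ⟨fun h => h.2, fun h => ⟨hE, h⟩⟩
    refine (sum_le_sum h9).trans (le_of_eq ?_)
    rw [← sum_mul, ← mul_sum, hπ1 x]
    ring
  have hav1 := wt_sum_cost X p z
  set F : Finset α → ℝ :=
    fun T => (s : ℝ) / l * ∑ x ∈ T, z x + ε / (4 * δ) * ∑ x ∈ X1 T, z x with hF
  have hFav : ∑ T ∈ X.powerset, wt X p T * F T ≤ 2 * ZX := by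
    have h1 : ∑ T ∈ X.powerset, wt X p T * F T
        = (s : ℝ) / l * (∑ T ∈ X.powerset, wt X p T * ∑ x ∈ T, z x)
          + ε / (4 * δ) * ∑ T ∈ X.powerset, wt X p T * ∑ x ∈ X1 T, z x := by
      rw [mul_sum, mul_sum, ← sum_add_distrib]
      refine sum_congr rfl fun T _ => ?_
      rw [hF]
      ring
    rw [h1, hav1]
    have h2 : (s : ℝ) / l * (p * ∑ x ∈ X, z x) = ZX := by
      rw [hp, ← hZX]
      field_simp
    have h3 : ε / (4 * δ) * ∑ T ∈ X.powerset, wt X p T * ∑ x ∈ X1 T, z x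
        ≤ ε / (4 * δ) * (4 * δ / ε * ZX) := mul_le_mul_of_nonneg_left hav2 (by positivity)
    have h4 : ε / (4 * δ) * (4 * δ / ε * ZX) = ZX := by
      field_simp
    rw [h2]
    linarith
  obtain ⟨T, hT, hFT⟩ := exists_le_of_wt X p hp0 hp1 F _ hFav
  have hTz : 0 ≤ ∑ x ∈ T, z x := sum_nonneg fun x _ => hz x
  have hXz : 0 ≤ ∑ x ∈ X1 T, z x := sum_nonneg fun x _ => hz x
  refine ⟨T, X1 T, mem_powerset.1 hT, filter_subset _ _, ?_, ?_, ?_⟩
  · have h1 : (s : ℝ) / l * ∑ x ∈ T, z x ≤ 2 * ZX := by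
      have h2 : 0 ≤ ε / (4 * δ) * ∑ x ∈ X1 T, z x := by positivity
      have h3 : F T = (s : ℝ) / l * ∑ x ∈ T, z x + ε / (4 * δ) * ∑ x ∈ X1 T, z x := rfl
      linarith
    rw [div_mul_eq_mul_div, div_le_iff₀ hl0] at h1
    calc (s : ℝ) * ∑ x ∈ T, z x ≤ 2 * ZX * l := h1
      _ = 2 * l * ZX := by ring
  · have h1 : ε / (4 * δ) * ∑ x ∈ X1 T, z x ≤ 2 * ZX := by
      have h2 : 0 ≤ (s : ℝ) / l * ∑ x ∈ T, z x := by positivity
      have h3 : F T = (s : ℝ) / l * ∑ x ∈ T, z x + ε / (4 * δ) * ∑ x ∈ X1 T, z x := rfl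
      linarith
    rw [div_mul_eq_mul_div, div_le_iff₀ (by positivity)] at h1
    have h4 : ε * ∑ x ∈ X1 T, z x ≤ ε * (τ * ZX) := by
      calc ε * ∑ x ∈ X1 T, z x ≤ 2 * ZX * (4 * δ) := h1
        _ = ε * (τ * ZX) := by rw [hδ]; ring
    exact le_of_mul_le_mul_left h4 hε
  · intro S hS
    by_cases hST : (S ∩ T).Nonempty
    · exact Or.inl hST
    right
    have hdis : S ∩ T = ∅ := not_nonempty_iff_eq_empty.1 hST
    have hbadS : ∀ E ∈ H, σ * s ≤ ((S ∩ E).card : ℝ) → E ∈ bad T := by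
      intro E hE hc
      refine mem_filter.2 ⟨hE, S, hS, hc, ?_⟩
      rw [disjoint_iff_inter_eq_empty]
      apply subset_empty.1
      intro x hx
      obtain ⟨hx1, hx2⟩ := mem_inter.1 hx
      have : x ∈ S ∩ T := mem_inter.2 ⟨(mem_inter.1 hx1).1, hx2⟩
      rw [hdis] at this
      exact this
    have h1 : ε * s ≤ ∑ c ∈ S, ∑ E ∈ bad T, π c E := by
      refine (hπ2 S hS).trans (sum_le_sum fun c _ => ?_)
      refine sum_le_sum_of_subset_of_nonneg ?_ fun E _ _ => hπ0 c E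
      intro E hE
      exact hbadS E (mem_filter.1 hE).1 (mem_filter.1 hE).2
    have h2 : ∀ c ∈ S, ∑ E ∈ bad T, π c E ≤ (if c ∈ X1 T then 1 else 0) + ε / 4 := by
      intro c hc
      by_cases h : c ∈ X1 T
      · rw [if_pos h]
        have h3 : ∑ E ∈ bad T, π c E ≤ 1 := by
          rw [← hπ1 c]
          exact sum_le_sum_of_subset_of_nonneg (filter_subset _ _) fun E _ _ => hπ0 c E
        linarith
      · rw [if_neg h]
        have h3 : ¬ ε / 4 ≤ ∑ E ∈ bad T, π c E := fun h4 =>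
          h (mem_filter.2 ⟨hX S hS hc, h4⟩)
        linarith
    have h3 : ∑ c ∈ S, ((if c ∈ X1 T then (1 : ℝ) else 0) + ε / 4)
        = ((S ∩ X1 T).card : ℝ) + S.card * (ε / 4) := by
      rw [sum_add_distrib, sum_const, nsmul_eq_mul, ← sum_filter, sum_const, nsmul_eq_mul,
        mul_one, filter_mem_eq_inter]
    have h4 : (S.card : ℝ) ≤ 2 * s := by exact_mod_cast (hsz S hS).2
    have h5 : (S.card : ℝ) * (ε / 4) ≤ 2 * s * (ε / 4) :=
      mul_le_mul_of_nonneg_right h4 (by positivity)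
    have h6 := h1.trans (sum_le_sum h2)
    rw [h3] at h6
    linarith

end Pool.Agent.Helper34.FQ
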