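import Pool.Agent.Helper34.FQ.ONEC
import Pool.Agent.Helper34.PN.NETS

/-!
Cheap nets for all costs.
-/

namespace Pool.Agent.Helper34.FQ

open Finset Pool.Agent.Helper34.PN

theorem nets_cost (m : ℕ) (hm : 1 ≤ m) : ∃ C : ℝ, 1 ≤ C ∧
    ∀ (α : Type) [DecidableEq α] (X : Finset α) (H : Finset (Finset α)) (s : ℕ)
      (z : α → ℝ), 1 ≤ s → Good X H m → (∀ E ∈ H, s ≤ (E ∩ X).card) → (∀ x, 0 ≤ z x) →
      ∃ T : Finset α, T ⊆ X ∧ (s : ℝ) * ∑ x ∈ T, z x ≤ C * ∑ x ∈ X, z x ∧
        ∀ E ∈ H, (E ∩ T).Nonempty := by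
  classical
  obtain ⟨ε₀, hε₀, hone₀⟩ := one_cost m hm
  set ε : ℝ := min ε₀ 1 with hε
  have hε0 : 0 < ε := lt_min hε₀ one_pos
  have hε1 : ε ≤ 1 := min_le_right _ _
  have hεε : ε ≤ ε₀ := min_le_left _ _
  obtain ⟨Λ, s0, hΛ, hs0, hone⟩ := hone₀ (ε / 4) (by positivity)
  set C : ℝ := max (4 * Λ) (max s0 1) with hC
  have hC1 : 1 ≤ C := (le_max_right _ _).trans (le_max_right _ _)
  have hC2 : (s0 : ℝ) ≤ C := (le_max_left _ _).trans (le_max_right _ _)
  have hC3 : 4 * Λ ≤ C := le_max_left _ _
  refine ⟨C, hC1, ?_⟩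
  intro α _
  have key : ∀ n j : ℕ, ∀ (X : Finset α) (H : Finset (Finset α)) (s : ℕ) (z : α → ℝ),
      X.card ≤ n → X.card + 1 - s ≤ j → 1 ≤ s → Good X H m → (∀ E ∈ H, s ≤ (E ∩ X).card) →
      (∀ x, 0 ≤ z x) →
      ∃ T : Finset α, T ⊆ X ∧ (s : ℝ) * ∑ x ∈ T, z x ≤ C * ∑ x ∈ X, z x ∧
        ∀ E ∈ H, (E ∩ T).Nonempty := by
    intro n
    induction n with
    | zero =>
      intro j X H s z hX _ hs _ hH hz
      refine ⟨∅, empty_subset _, ?_, ?_⟩
      · have h1 : 0 ≤ ∑ x ∈ X, z x := sum_nonneg fun x _ => hz x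
        rw [sum_empty, mul_zero]
        positivity
      · intro E hE
        have h1 := hH E hE
        have h2 : (E ∩ X).card ≤ X.card := card_le_card inter_subset_right
        omega
    | succ n ihn =>
      intro j
      induction j with
      | zero =>
        intro X H s z hX hj hs _ hH hz
        refine ⟨∅, empty_subset _, ?_, ?_⟩
        · have h1 : 0 ≤ ∑ x ∈ X, z x := sum_nonneg fun x _ => hz x
          rw [sum_empty, mul_zero]
          positivity
        · intro E hE
          have h1 := hH E hE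
          have h2 : (E ∩ X).card ≤ X.card := card_le_card inter_subset_right
          omega
      | succ j ihj =>
        intro X H s z hX hj hs hG hH hz
        have hZ0 : 0 ≤ ∑ x ∈ X, z x := sum_nonneg fun x _ => hz x
        have hs0' : (0 : ℝ) < s := by exact_mod_cast hs
        by_cases hss : s < s0
        · refine ⟨X, Subset.refl _, ?_, ?_⟩
          · have h1 : (s : ℝ) ≤ s0 := by exact_mod_cast hss.le
            exact mul_le_mul_of_nonneg_right (h1.trans hC2) hZ0
          · intro E hE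
            rw [← card_pos]
            have := hH E hE
            omega
        push Not at hss
        rcases hZ0.eq_or_lt with hZe | hZpos
        · refine ⟨X, Subset.refl _, ?_, ?_⟩
          · rw [← hZe, mul_zero, mul_zero]
          · intro E hE
            rw [← card_pos]
            have := hH E hE
            omega
        -- the big members
        obtain ⟨T1, hT1X, hT1c, hT1⟩ := ihj X (H.filter (fun E => 2 * s ≤ (E ∩ X).card))
          (2 * s) z hX (by omega) (by omega) (hG.mono1 (Subset.refl _) (filter_subset _ _))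
          (fun E hE => (mem_filter.1 hE).2) hz
        -- the members of this scale
        set H0 : Finset (Finset α) :=
          (H.filter (fun E => (E ∩ X).card < 2 * s)).image (fun E => E ∩ X) with hH0
        have hG0 : Good X H0 m :=
          (hG.mono1 (Subset.refl _) (filter_subset _ _)).image_inter
        obtain ⟨T0, X1, hT0X, hX1X, hT0c, hX1c, hT0⟩ := hone α X H0 s z hss
          (fun E hE => by
            obtain ⟨E', _, rfl⟩ := mem_image.1 hE
            exact inter_subset_right) hG0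
          (fun E hE => by
            obtain ⟨E', hE', rfl⟩ := mem_image.1 hE
            have h1 := mem_filter.1 hE'
            exact ⟨hH E' h1.1, h1.2.le⟩) hz
        have hX1card : X1.card < X.card := by
          apply card_lt_card
          refine ⟨hX1X, fun hcon => ?_⟩
          have h1 : X1 = X := Subset.antisymm hX1X hcon
          rw [h1] at hX1c
          nlinarith
        set s1 : ℕ := ⌈ε * s⌉₊ with hs1
        have hs1pos : 1 ≤ s1 := Nat.ceil_pos.2 (by positivity)
        have hs1le : ε * s ≤ s1 := Nat.le_ceil _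
        obtain ⟨T2, hT2S, hT2c, hT2⟩ := ihn (X1.card + 1 - s1) X1
          (H0.filter (fun E => ε * s ≤ ((E ∩ X1).card : ℝ))) s1 z (by omega) le_rfl
          hs1pos (hG0.mono1 hX1X (filter_subset _ _))
          (fun E hE => Nat.ceil_le.2 (mem_filter.1 hE).2) hz
        refine ⟨T1 ∪ T2 ∪ T0, union_subset (union_subset hT1X (hT2S.trans hX1X)) hT0X, ?_, ?_⟩
        · have hcost : ∀ A B : Finset α, ∑ x ∈ A ∪ B, z x ≤ ∑ x ∈ A, z x + ∑ x ∈ B, z x := by
            intro A B
            rw [← sum_union_inter]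
            have : 0 ≤ ∑ x ∈ A ∩ B, z x := sum_nonneg fun x _ => hz x
            linarith
          have hc1 : ∑ x ∈ T1 ∪ T2 ∪ T0, z x
              ≤ ∑ x ∈ T1, z x + ∑ x ∈ T2, z x + ∑ x ∈ T0, z x :=
            (hcost _ _).trans (by linarith [hcost T1 T2])
          have ha : (s : ℝ) * ∑ x ∈ T1, z x ≤ C / 2 * ∑ x ∈ X, z x := by
            push_cast at hT1c
            linarith
          have hb : (s : ℝ) * ∑ x ∈ T2, z x ≤ C / 4 * ∑ x ∈ X, z x := by
            have h1 : 0 ≤ ∑ x ∈ T2, z x := sum_nonneg fun x _ => hz x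
            have h2 : ε * (s * ∑ x ∈ T2, z x) ≤ ε * (C / 4 * ∑ x ∈ X, z x) := by
              calc ε * (s * ∑ x ∈ T2, z x) = ε * s * ∑ x ∈ T2, z x := by ring
                _ ≤ s1 * ∑ x ∈ T2, z x := mul_le_mul_of_nonneg_right hs1le h1
                _ ≤ C * ∑ x ∈ X1, z x := hT2c
                _ ≤ C * (ε / 4 * ∑ x ∈ X, z x) :=
                    mul_le_mul_of_nonneg_left hX1c (by linarith)
                _ = ε * (C / 4 * ∑ x ∈ X, z x) := by ring
            exact le_of_mul_le_mul_left h2 hε0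
          have hc : (s : ℝ) * ∑ x ∈ T0, z x ≤ C / 4 * ∑ x ∈ X, z x := by
            refine hT0c.trans (mul_le_mul_of_nonneg_right ?_ hZ0)
            linarith
          have hd : (s : ℝ) * ∑ x ∈ T1 ∪ T2 ∪ T0, z x
              ≤ s * (∑ x ∈ T1, z x + ∑ x ∈ T2, z x + ∑ x ∈ T0, z x) :=
            mul_le_mul_of_nonneg_left hc1 hs0'.le
          linarith
        · intro E hE
          by_cases hbig : 2 * s ≤ (E ∩ X).card
          · obtain ⟨x, hx⟩ := hT1 E (mem_filter.2 ⟨hE, hbig⟩)
            obtain ⟨hx1, hx2⟩ := mem_inter.1 hx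
            exact ⟨x, mem_inter.2 ⟨hx1, mem_union_left _ (mem_union_left _ hx2)⟩⟩
          · push Not at hbig
            have hE0 : E ∩ X ∈ H0 := mem_image.2 ⟨E, mem_filter.2 ⟨hE, hbig⟩, rfl⟩
            rcases hT0 _ hE0 with h | h
            · obtain ⟨x, hx⟩ := h
              obtain ⟨hx1, hx2⟩ := mem_inter.1 hx
              exact ⟨x, mem_inter.2 ⟨(mem_inter.1 hx1).1, mem_union_right _ hx2⟩⟩
            · have h1 : ε * s ≤ ((E ∩ X ∩ X1).card : ℝ) :=
                le_trans (mul_le_mul_of_nonneg_right hεε hs0'.le) h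
              obtain ⟨x, hx⟩ := hT2 _ (mem_filter.2 ⟨hE0, h1⟩)
              obtain ⟨hx1, hx2⟩ := mem_inter.1 hx
              exact ⟨x, mem_inter.2 ⟨(mem_inter.1 hx1).1,
                mem_union_left _ (mem_union_right _ hx2)⟩⟩
  intro X H s z hs hG hH hz
  exact key X.card (X.card + 1 - s) X H s z le_rfl le_rfl hs hG hH hz

end Pool.Agent.Helper34.FQ
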