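import Pool.Agent.Helper34.FQ.DATB
import Pool.Agent.Helper55.FQ_BRANCH
import Pool.Agent.Helper20.FQ_SAMPA

/-!
Near neighbours: for every weight on the members of one scale some assignment of members to points
catches a fixed fraction of the incidences.
-/

namespace Pool.Agent.Helper34.FQ

open Finset Pool.Agent.Helper34.PN

theorem samp_sum {α : Type} [DecidableEq α] (X : Finset α) (H : Finset (Finset α)) (s : ℕ)
    (σ : ℝ) (hσ : 0 ≤ σ) (μ : Finset α → ℝ) (hμ : ∀ S ∈ H, 0 ≤ μ S)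
    (hs : ∀ S ∈ H, S.card ≤ 2 * s) (hne : H.Nonempty) (c : α) (b : ℝ)
    (hb : ∀ S' ∈ H, ∑ S ∈ H.filter (fun S => c ∈ S ∧ σ * s ≤ ((S ∩ S').card : ℝ)), μ S ≤ b) :
    (∑ z ∈ X.erase c, (∑ S ∈ H.filter (fun S => c ∈ S ∧ z ∈ S), μ S) ^ 2)
        / (∑ S ∈ H.filter (fun S => c ∈ S), μ S)
      ≤ σ * s * (∑ S ∈ H.filter (fun S => c ∈ S), μ S) + 2 * s * b := by
  classical
  set N : ℝ := ∑ S ∈ H.filter (fun S => c ∈ S), μ S with hN
  have hN0 : 0 ≤ N := sum_nonneg fun S hS => hμ S (mem_filter.1 hS).1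
  have hs0 : (0 : ℝ) ≤ s := Nat.cast_nonneg _
  obtain ⟨S₀, hS₀⟩ := hne
  have hb0 : 0 ≤ b := (sum_nonneg fun S hS => hμ S (mem_filter.1 hS).1).trans (hb S₀ hS₀)
  rcases hN0.eq_or_lt with h0 | hpos
  · rw [← h0, div_zero]
    positivity
  rw [div_le_iff₀ hpos]
  have h1 : ∀ z, (∑ S ∈ H.filter (fun S => c ∈ S ∧ z ∈ S), μ S) ^ 2
      = ∑ S' ∈ H.filter (fun S => c ∈ S), μ S' * ∑ S ∈ H.filter (fun S => c ∈ S),
          (if z ∈ S ∩ S' then μ S else 0) := by
    intro z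
    have h2 : ∑ S ∈ H.filter (fun S => c ∈ S ∧ z ∈ S), μ S
        = ∑ S ∈ H.filter (fun S => c ∈ S), (if z ∈ S then μ S else 0) := by
      rw [← sum_filter, filter_filter]
    rw [h2, sq, sum_mul]
    refine sum_congr rfl fun S' _ => ?_
    by_cases hz : z ∈ S'
    · rw [if_pos hz]
      congr 1
      refine sum_congr rfl fun S _ => ?_
      by_cases hz2 : z ∈ S
      · rw [if_pos hz2, if_pos (mem_inter.2 ⟨hz2, hz⟩)]
      · rw [if_neg hz2, if_neg fun h => hz2 (mem_inter.1 h).1]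
    · rw [if_neg hz, zero_mul]
      rw [sum_eq_zero, mul_zero]
      intro S _
      rw [if_neg fun h => hz (mem_inter.1 h).2]
  calc ∑ z ∈ X.erase c, (∑ S ∈ H.filter (fun S => c ∈ S ∧ z ∈ S), μ S) ^ 2
      = ∑ S' ∈ H.filter (fun S => c ∈ S), μ S' * ∑ S ∈ H.filter (fun S => c ∈ S),
          ∑ z ∈ X.erase c, (if z ∈ S ∩ S' then μ S else 0) := by
        rw [sum_congr rfl fun z _ => h1 z, sum_comm]
        refine sum_congr rfl fun S' _ => ?_
        rw [← mul_sum, sum_comm]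
    _ ≤ ∑ S' ∈ H.filter (fun S => c ∈ S), μ S' * (σ * s * N + 2 * s * b) := by
        refine sum_le_sum fun S' hS' => ?_
        have hS'H := (mem_filter.1 hS').1
        refine mul_le_mul_of_nonneg_left ?_ (hμ S' hS'H)
        have h3 : ∀ S ∈ H.filter (fun S => c ∈ S),
            ∑ z ∈ X.erase c, (if z ∈ S ∩ S' then μ S else 0)
              ≤ σ * s * μ S + 2 * s * (if σ * s ≤ ((S ∩ S').card : ℝ) then μ S else 0) := by
          intro S hS
          have hSH := (mem_filter.1 hS).1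
          have hμS := hμ S hSH
          have h4 : ∑ z ∈ X.erase c, (if z ∈ S ∩ S' then μ S else 0)
              ≤ ((S ∩ S').card : ℝ) * μ S := by
            rw [← sum_filter, sum_const, nsmul_eq_mul]
            refine mul_le_mul_of_nonneg_right ?_ hμS
            exact_mod_cast card_le_card fun z hz => (mem_filter.1 hz).2
          refine h4.trans ?_
          by_cases hc : σ * s ≤ ((S ∩ S').card : ℝ)
          · rw [if_pos hc]
            have h5 : ((S ∩ S').card : ℝ) ≤ 2 * s := by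
              have : (S ∩ S').card ≤ 2 * s := (card_le_card inter_subset_left).trans (hs S hSH)
              exact_mod_cast this
            have h6 : ((S ∩ S').card : ℝ) * μ S ≤ 2 * s * μ S :=
              mul_le_mul_of_nonneg_right h5 hμS
            have h7 : 0 ≤ σ * s * μ S := by positivity
            linarith
          · rw [if_neg hc, mul_zero, add_zero]
            push Not at hc
            exact mul_le_mul_of_nonneg_right hc.le hμS
        refine (sum_le_sum h3).trans ?_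
        rw [sum_add_distrib, ← mul_sum, ← mul_sum, ← hN, ← sum_filter, filter_filter]
        have h8 := hb S' hS'H
        have h9 : 2 * (s : ℝ) * ∑ S ∈ H.filter (fun S => c ∈ S ∧ σ * s ≤ ((S ∩ S').card : ℝ)), μ S
            ≤ 2 * s * b := mul_le_mul_of_nonneg_left h8 (by positivity)
        linarith
    _ = (σ * s * N + 2 * s * b) * N := by
        rw [← sum_mul, ← hN, mul_comm]

theorem samp (m : ℕ) (hm : 1 ≤ m) : ∃ (σ ε : ℝ) (s0 : ℕ), 0 < σ ∧ 0 < ε ∧
    ∀ (α : Type) [DecidableEq α] (X : Finset α) (H : Finset (Finset α)) (s : ℕ)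
      (μ : Finset α → ℝ), s0 ≤ s → (∀ S ∈ H, S ⊆ X) → Good X H m →
      (∀ S ∈ H, s ≤ S.card ∧ S.card ≤ 2 * s) → (∀ S ∈ H, 0 ≤ μ S) → H.Nonempty →
      ∃ κ : α → Finset α, (∀ c, κ c ∈ H) ∧
        ε * s * ∑ S ∈ H, μ S
          ≤ ∑ S ∈ H, μ S * ((S.filter (fun c => σ * s ≤ ((S ∩ κ c).card : ℝ))).card : ℝ) := by
  classical
  obtain ⟨r, ε, hr, hε, hb⟩ := branch_of m (branch_dat m hm)
  obtain ⟨cr, hcr0, hcr1, hA⟩ := samp_avg m r ε hr hε hb
  have hr0 : (0 : ℝ) < r := by exact_mod_cast hr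
  set σ : ℝ := ε ^ 2 * cr ^ 2 / (128 * r ^ 3) with hσ
  have hσ0 : 0 < σ := by positivity
  refine ⟨σ, σ, 2 * r, hσ0, hσ0, ?_⟩
  intro α _ X H s μ hs hX hG hsz hμ hne
  have hs1 : 0 < s := by omega
  have hs0 : (0 : ℝ) < s := by exact_mod_cast hs1
  have hmax : ∀ c : α, ∃ S' ∈ H, ∀ S'' ∈ H,
      ∑ S ∈ H.filter (fun S => c ∈ S ∧ σ * s ≤ ((S ∩ S'').card : ℝ)), μ S
        ≤ ∑ S ∈ H.filter (fun S => c ∈ S ∧ σ * s ≤ ((S ∩ S').card : ℝ)), μ S := fun c =>
    exists_max_image H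
      (fun S' => ∑ S ∈ H.filter (fun S => c ∈ S ∧ σ * s ≤ ((S ∩ S').card : ℝ)), μ S) hne
  choose κ hκ1 hκ2 using hmax
  refine ⟨κ, hκ1, ?_⟩
  set b : α → ℝ :=
    fun c => ∑ S ∈ H.filter (fun S => c ∈ S ∧ σ * s ≤ ((S ∩ κ c).card : ℝ)), μ S with hbd
  set U : ℝ := ∑ S ∈ H, μ S with hU
  have hU0 : 0 ≤ U := sum_nonneg hμ
  have hswap : ∑ S ∈ H, μ S * ((S.filter (fun c => σ * s ≤ ((S ∩ κ c).card : ℝ))).card : ℝ)
      = ∑ c ∈ X, b c := by
    have h1 : ∀ S ∈ H, μ S * ((S.filter (fun c => σ * s ≤ ((S ∩ κ c).card : ℝ))).card : ℝ)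
        = ∑ c ∈ X, (if c ∈ S ∧ σ * s ≤ ((S ∩ κ c).card : ℝ) then μ S else 0) := by
      intro S hS
      rw [← sum_filter, sum_const, nsmul_eq_mul, mul_comm]
      congr 2
      congr 1
      ext c
      simp only [mem_filter]
      constructor
      · rintro ⟨h1, h2⟩
        exact ⟨hX S hS h1, h1, h2⟩
      · rintro ⟨_, h1, h2⟩
        exact ⟨h1, h2⟩
    rw [sum_congr rfl h1, sum_comm]
    refine sum_congr rfl fun c _ => ?_
    rw [hbd, ← sum_filter]
  have hNsum : ∑ c ∈ X, ∑ S ∈ H.filter (fun S => c ∈ S), μ S ≤ 2 * s * U := by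
    have h1 : ∑ c ∈ X, ∑ S ∈ H.filter (fun S => c ∈ S), μ S
        = ∑ S ∈ H, μ S * (S.card : ℝ) := by
      have h2 : ∀ c ∈ X, ∑ S ∈ H.filter (fun S => c ∈ S), μ S
          = ∑ S ∈ H, (if c ∈ S then μ S else 0) := fun c _ => by rw [← sum_filter]
      rw [sum_congr rfl h2, sum_comm]
      refine sum_congr rfl fun S hS => ?_
      rw [← sum_filter, sum_const, nsmul_eq_mul, mul_comm]
      congr 2
      congr 1
      ext c
      simp only [mem_filter]
      exact ⟨fun h => h.2, fun h => ⟨hX S hS h, h⟩⟩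
    rw [h1, hU, mul_sum]
    refine sum_le_sum fun S hS => ?_
    have h3 : (S.card : ℝ) ≤ 2 * s := by exact_mod_cast (hsz S hS).2
    calc μ S * (S.card : ℝ) ≤ μ S * (2 * s) := mul_le_mul_of_nonneg_left h3 (hμ S hS)
      _ = 2 * s * μ S := by ring
  by_contra hcon
  push Not at hcon
  rw [hswap] at hcon
  have hUpos : 0 < U := by
    rcases hU0.eq_or_lt with h | h
    · exfalso
      rw [← h, mul_zero] at hcon
      have : 0 ≤ ∑ c ∈ X, b c := sum_nonneg fun c _ =>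
        sum_nonneg fun S hS => hμ S (mem_filter.1 hS).1
      linarith
    · exact h
  set t : ℝ := ε * cr / (8 * r) with ht
  have ht0 : 0 < t := by positivity
  have hmain := hA α X H s μ t hs hX hG hsz hμ ht0
  have hlast : ∑ c ∈ X, (∑ z ∈ X.erase c, (∑ S ∈ H.filter (fun S => c ∈ S ∧ z ∈ S), μ S) ^ 2)
      / (∑ S ∈ H.filter (fun S => c ∈ S), μ S) ≤ 4 * σ * s ^ 2 * U := by
    calc ∑ c ∈ X, (∑ z ∈ X.erase c, (∑ S ∈ H.filter (fun S => c ∈ S ∧ z ∈ S), μ S) ^ 2)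
          / (∑ S ∈ H.filter (fun S => c ∈ S), μ S)
        ≤ ∑ c ∈ X, (σ * s * (∑ S ∈ H.filter (fun S => c ∈ S), μ S) + 2 * s * b c) :=
          sum_le_sum fun c _ => samp_sum X H s σ hσ0.le μ hμ (fun S hS => (hsz S hS).2) hne c (b c)
            (fun S' hS' => hκ2 c S' hS')
      _ = σ * s * (∑ c ∈ X, ∑ S ∈ H.filter (fun S => c ∈ S), μ S) + 2 * s * ∑ c ∈ X, b c := by
          rw [sum_add_distrib, ← mul_sum, ← mul_sum]
      _ ≤ σ * s * (2 * s * U) + 2 * s * (σ * s * U) := by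
          have h1 : σ * s * (∑ c ∈ X, ∑ S ∈ H.filter (fun S => c ∈ S), μ S)
              ≤ σ * s * (2 * s * U) := mul_le_mul_of_nonneg_left hNsum (by positivity)
          have h2 : 2 * s * ∑ c ∈ X, b c ≤ 2 * s * (σ * s * U) :=
            mul_le_mul_of_nonneg_left hcon.le (by positivity)
          linarith
      _ = 4 * σ * s ^ 2 * U := by ring
  have h3 : (r : ℝ) ^ 2 / ((s : ℝ) ^ 2 * t)
      * ∑ c ∈ X, (∑ z ∈ X.erase c, (∑ S ∈ H.filter (fun S => c ∈ S ∧ z ∈ S), μ S) ^ 2)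
      / (∑ S ∈ H.filter (fun S => c ∈ S), μ S)
      ≤ (r : ℝ) ^ 2 / ((s : ℝ) ^ 2 * t) * (4 * σ * s ^ 2 * U) :=
    mul_le_mul_of_nonneg_left hlast (by positivity)
  have h4 : (r : ℝ) ^ 2 / ((s : ℝ) ^ 2 * t) * (4 * σ * s ^ 2 * U) = ε * cr / 4 * U := by
    rw [hσ, ht]
    field_simp
    ring
  have h5 : 2 * r * t * U = ε * cr / 4 * U := by
    rw [ht]
    field_simp
    ring
  have h6 : 0 < ε * cr * U := by positivity
  linarith

end Pool.Agent.Helper34.FQ
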