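import Pool.Agent.Helper34.FQ.SAMP
import Pool.Agent.Helper28.FQ_MMX

/-!
A distribution on near neighbours which is good for every member of one scale (minimax).
-/

namespace Pool.Agent.Helper34.FQ

open Finset Pool.Agent.Helper34.PN

theorem spread_dist (m : ℕ) (hm : 1 ≤ m) : ∃ (σ ε : ℝ) (s0 : ℕ), 0 < σ ∧ 0 < ε ∧
    ∀ (α : Type) [DecidableEq α] (X : Finset α) (H : Finset (Finset α)) (s : ℕ),
      s0 ≤ s → (∀ S ∈ H, S ⊆ X) → Good X H m →
      (∀ S ∈ H, s ≤ S.card ∧ S.card ≤ 2 * s) → H.Nonempty →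
      ∃ π : α → Finset α → ℝ, (∀ c E, 0 ≤ π c E) ∧ (∀ c, ∑ E ∈ H, π c E = 1) ∧
        ∀ S ∈ H, ε * s ≤ ∑ c ∈ S,
          ∑ E ∈ H.filter (fun E => σ * s ≤ ((S ∩ E).card : ℝ)), π c E := by
  classical
  obtain ⟨σ, ε, s0, hσ, hε, hsamp⟩ := samp m hm
  refine ⟨σ, ε, s0, hσ, hε, ?_⟩
  intro α _ X H s hs0 hX hG hsz hne
  obtain ⟨E0, hE0⟩ := hne
  set ex : (↥X → ↥H) → α → Finset α :=
    fun κ c => if h : c ∈ X then (κ ⟨c, h⟩).1 else E0 with hex
  have hexH : ∀ κ c, ex κ c ∈ H := by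
    intro κ c
    simp only [hex]
    split_ifs with h
    · exact (κ ⟨c, h⟩).2
    · exact hE0
  obtain ⟨w, hw0, hw1, hw2⟩ := minimax (J := ↥X → ↥H) (ι := ↥H)
    (fun κ S => -((S.1.filter (fun c => σ * s ≤ ((S.1 ∩ ex κ c).card : ℝ))).card : ℝ))
    (fun _ => -(ε * s)) (by
      intro z hz
      obtain ⟨κ, hκ1, hκ2⟩ := hsamp α X H s (fun S => if h : S ∈ H then z ⟨S, h⟩ else 0) hs0 hX hG
        hsz (fun S hS => by rw [dif_pos hS]; exact hz _) ⟨E0, hE0⟩
      refine ⟨fun c => ⟨κ c.1, hκ1 c.1⟩, ?_⟩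
      have h1 : ∀ (S : Finset α), S ∈ H → ∀ c ∈ S,
          ex (fun c : ↥X => (⟨κ c.1, hκ1 c.1⟩ : ↥H)) c = κ c := by
        intro S hS c hc
        simp only [hex]
        rw [dif_pos (hX S hS hc)]
      rw [← sum_coe_sort H, ← sum_coe_sort H] at hκ2
      have h2 : ∀ S : ↥H, (if h : S.1 ∈ H then z ⟨S.1, h⟩ else 0) = z S := by
        intro S
        rw [dif_pos S.2]
      simp only [h2] at hκ2
      have h3 : ∀ S : ↥H, S.1.filter (fun c => σ * s ≤ ((S.1 ∩
          ex (fun c : ↥X => (⟨κ c.1, hκ1 c.1⟩ : ↥H)) c).card : ℝ))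
          = S.1.filter (fun c => σ * s ≤ ((S.1 ∩ κ c).card : ℝ)) := by
        intro S
        refine filter_congr fun c hc => ?_
        rw [h1 S.1 S.2 c hc]
      simp only [h3]
      have h4 : ∑ i : ↥H, z i * -(((i.1.filter
            (fun c => σ * s ≤ ((i.1 ∩ κ c).card : ℝ))).card : ℕ) : ℝ)
          = -∑ i : ↥H, z i * (((i.1.filter
            (fun c => σ * s ≤ ((i.1 ∩ κ c).card : ℝ))).card : ℕ) : ℝ) := by
        rw [← sum_neg_distrib]
        exact sum_congr rfl fun i _ => by ring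
      have h5 : ∑ i : ↥H, z i * -(ε * s) = -(ε * s * ∑ i : ↥H, z i) := by
        rw [mul_sum, ← sum_neg_distrib]
        exact sum_congr rfl fun i _ => by ring
      rw [h4, h5]
      exact neg_le_neg hκ2)
  refine ⟨fun c E => ∑ κ ∈ univ.filter (fun κ => ex κ c = E), w κ, ?_, ?_, ?_⟩
  · intro c E
    exact sum_nonneg fun κ _ => hw0 κ
  · intro c
    rw [← hw1]
    exact sum_fiberwise_of_maps_to (fun κ _ => hexH κ c) _
  · intro S hS
    have h1 := hw2 ⟨S, hS⟩
    have h2 : ∑ κ, w κ * -((S.filter (fun c => σ * s ≤ ((S ∩ ex κ c).card : ℝ))).card : ℝ)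
        = -∑ c ∈ S, ∑ E ∈ H.filter (fun E => σ * s ≤ ((S ∩ E).card : ℝ)),
          ∑ κ ∈ univ.filter (fun κ => ex κ c = E), w κ := by
      have h3 : ∀ c ∈ S, ∑ E ∈ H.filter (fun E => σ * s ≤ ((S ∩ E).card : ℝ)),
          ∑ κ ∈ univ.filter (fun κ => ex κ c = E), w κ
          = ∑ κ, (if σ * s ≤ ((S ∩ ex κ c).card : ℝ) then w κ else 0) := by
        intro c _
        rw [← sum_filter]
        have h4 : ∀ E ∈ H.filter (fun E => σ * s ≤ ((S ∩ E).card : ℝ)),
            univ.filter (fun κ => ex κ c = E)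
              = (univ.filter (fun κ => σ * s ≤ ((S ∩ ex κ c).card : ℝ))).filter
                (fun κ => ex κ c = E) := by
          intro E hE
          ext κ
          simp only [mem_filter, mem_univ, true_and]
          constructor
          · intro h
            exact ⟨by rw [h]; exact (mem_filter.1 hE).2, h⟩
          · exact fun h => h.2
        rw [sum_congr rfl fun E hE => by rw [h4 E hE]]
        exact sum_fiberwise_of_maps_to
          (fun κ hκ => mem_filter.2 ⟨hexH κ c, (mem_filter.1 hκ).2⟩) _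
      rw [sum_congr rfl h3, sum_comm, ← sum_neg_distrib]
      refine sum_congr rfl fun κ _ => ?_
      rw [← sum_filter, sum_const, nsmul_eq_mul]
      ring
    have h1' : ∑ κ, w κ * -((S.filter (fun c => σ * s ≤ ((S ∩ ex κ c).card : ℝ))).card : ℝ)
        ≤ -(ε * s) := h1
    rw [h2] at h1'
    exact neg_le_neg_iff.1 h1'

end Pool.Agent.Helper34.FQ
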